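import Mathlib

/-!
# A convex union representable complex that is not non-evasive

Take the five lines spanned by the sides of a convex pentagon.  The five open outer half-planes and
a slightly enlarged open pentagon cover the plane.  Their nerve is a two-dimensional complex with
six vertices; the link of every vertex has the Euler characteristic of a circle, so no link is
non-evasive.
-/

namespace Pool.Agent.Results.MP_fcbbae_co.EvasivePentagon

open Finset

/-- A simplicial complex on the ground set `V`: a family of finite sets which contains the empty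
set and is closed under taking subsets. -/
def IsComplex {V : Type*} (K : Set (Finset V)) : Prop :=
  ∅ ∈ K ∧ ∀ s ∈ K, ∀ t ⊆ s, t ∈ K

/-- The deletion of the vertex `v`. -/
def deletion {V : Type*} (K : Set (Finset V)) (v : V) : Set (Finset V) := {t | t ∈ K ∧ v ∉ t}

/-- The link of the vertex `v`. -/
def link {V : Type*} [DecidableEq V] (K : Set (Finset V)) (v : V) : Set (Finset V) :=
  {t | t ∈ K ∧ v ∉ t ∧ insert v t ∈ K}

/-- Non-evasive complexes: a single point is non-evasive; a complex with at least two vertices is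
non-evasive if it has a vertex whose deletion and whose link are non-evasive. -/
inductive NonEvasive {V : Type*} [DecidableEq V] : Set (Finset V) → Prop
  | point (v : V) : NonEvasive {∅, {v}}
  | step (K : Set (Finset V)) (hK : IsComplex K) (v : V) (hv : {v} ∈ K)
      (two : ∃ w, w ≠ v ∧ {w} ∈ K) (hdel : NonEvasive (deletion K v))
      (hlk : NonEvasive (link K v)) : NonEvasive K

/-- The nerve of a family of sets (an empty intersection is the whole space). -/
def nerve {n d : ℕ} (U : Fin n → Set (EuclideanSpace ℝ (Fin d))) : Set (Finset (Fin n)) :=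
  {s | (⋂ i ∈ s, U i).Nonempty}

/-- `K` is `d`-convex union representable. -/
def IsDCUR {n : ℕ} (d : ℕ) (K : Set (Finset (Fin n))) : Prop :=
  ∃ U : Fin n → Set (EuclideanSpace ℝ (Fin d)),
    (∀ i, IsOpen (U i) ∧ Convex ℝ (U i)) ∧ (∃ i, (U i).Nonempty) ∧
      Convex ℝ (⋃ i, U i) ∧ nerve U = K

/-- `K` is convex union representable. -/
def IsCUR {n : ℕ} (K : Set (Finset (Fin n))) : Prop := ∃ d, IsDCUR d K

/-! ### Euler characteristic -/

open Classical in
/-- The reduced Euler characteristic (up to sign). -/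
noncomputable def eul {V : Type*} [Fintype V] (K : Set (Finset V)) : ℤ :=
  ∑ s : Finset V, if s ∈ K then (-1) ^ s.card else 0

theorem eul_step {V : Type*} [Fintype V] [DecidableEq V] (K : Set (Finset V)) (hK : IsComplex K)
    (v : V) : eul K = eul (deletion K v) - eul (link K v) := by
  classical
  unfold eul
  have h1 : (∑ s : Finset V, if s ∈ K then (-1 : ℤ) ^ s.card else 0)
      = (∑ s : Finset V, if s ∈ deletion K v then (-1 : ℤ) ^ s.card else 0)
        + ∑ s : Finset V, if (s ∈ K ∧ v ∈ s) then (-1 : ℤ) ^ s.card else 0 := by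
    rw [← Finset.sum_add_distrib]
    refine Finset.sum_congr rfl fun s _ => ?_
    by_cases hs : s ∈ K <;> by_cases hv : v ∈ s <;> simp [deletion, hs, hv]
  have h2 : (∑ s : Finset V, if (s ∈ K ∧ v ∈ s) then (-1 : ℤ) ^ s.card else 0)
      = - ∑ s : Finset V, if s ∈ link K v then (-1 : ℤ) ^ s.card else 0 := by
    rw [← Finset.sum_filter, ← Finset.sum_filter, ← Finset.sum_neg_distrib]
    refine Finset.sum_bij' (fun s _ => s.erase v) (fun t _ => insert v t) ?_ ?_ ?_ ?_ ?_
    · intro s hs
      simp only [Finset.mem_filter, Finset.mem_univ, true_and, link, Set.mem_setOf_eq] at hs ⊢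
      exact ⟨hK.2 s hs.1 _ (Finset.erase_subset _ _), Finset.notMem_erase _ _, by
        rw [Finset.insert_erase hs.2]; exact hs.1⟩
    · intro t ht
      simp only [Finset.mem_filter, Finset.mem_univ, true_and, link, Set.mem_setOf_eq] at ht ⊢
      exact ⟨ht.2.2, Finset.mem_insert_self _ _⟩
    · intro s hs
      simp only [Finset.mem_filter, Finset.mem_univ, true_and] at hs
      exact Finset.insert_erase hs.2
    · intro t ht
      simp only [Finset.mem_filter, Finset.mem_univ, true_and, link, Set.mem_setOf_eq] at ht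
      exact Finset.erase_insert ht.2.1
    · intro s hs
      simp only [Finset.mem_filter, Finset.mem_univ, true_and] at hs
      have hc : s.card = (s.erase v).card + 1 := by
        rw [Finset.card_erase_of_mem hs.2]
        have := Finset.card_pos.2 ⟨v, hs.2⟩
        omega
      rw [hc, pow_succ]
      ring
  rw [h1, h2]
  ring

theorem eul_point {V : Type*} [Fintype V] [DecidableEq V] (v : V) :
    eul ({∅, {v}} : Set (Finset V)) = 0 := by
  have h : eul ({∅, {v}} : Set (Finset V))
      = ∑ s : Finset V, ((if s = ∅ then (1 : ℤ) else 0) + (if s = {v} then -1 else 0)) := by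
    unfold eul
    refine Finset.sum_congr rfl fun s _ => ?_
    by_cases h1 : s = ∅
    · subst h1
      simp [(Finset.singleton_ne_empty v).symm]
    · by_cases h2 : s = {v}
      · subst h2
        simp
      · simp [h1, h2]
  rw [h, Finset.sum_add_distrib]
  simp

theorem NonEvasive.eul {V : Type*} [Fintype V] [DecidableEq V] {K : Set (Finset V)}
    (h : NonEvasive K) : EvasivePentagon.eul K = 0 := by
  induction h with
  | point v => exact eul_point v
  | step K hK v hv two hdel hlk ih1 ih2 => rw [eul_step K hK v, ih1, ih2]; simp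

/-! ### The complex -/

/-- The ten triangles of the complex. -/
def triangles : Finset (Finset (Fin 6)) :=
  {{0, 1, 2}, {1, 2, 3}, {2, 3, 4}, {0, 3, 4}, {0, 1, 4},
    {0, 1, 5}, {1, 2, 5}, {2, 3, 5}, {3, 4, 5}, {0, 4, 5}}

/-- The minimal non-faces of the complex. -/
def nonfaces : Finset (Finset (Fin 6)) :=
  {{0, 1, 3}, {1, 2, 4}, {0, 2, 3}, {1, 3, 4}, {0, 2, 4},
    {0, 2, 5}, {1, 3, 5}, {2, 4, 5}, {0, 3, 5}, {1, 4, 5}}

/-- The complex. -/
def cpx : Set (Finset (Fin 6)) := {s | ∃ F ∈ triangles, s ⊆ F}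

instance (s : Finset (Fin 6)) : Decidable (s ∈ cpx) :=
  inferInstanceAs (Decidable (∃ F ∈ triangles, s ⊆ F))

instance (v : Fin 6) (s : Finset (Fin 6)) : Decidable (s ∈ link cpx v) :=
  inferInstanceAs (Decidable (s ∈ cpx ∧ v ∉ s ∧ insert v s ∈ cpx))

theorem isComplex_cpx : IsComplex cpx := by
  refine ⟨⟨{0, 1, 2}, by decide, by simp⟩, ?_⟩
  rintro s ⟨F, hF, hs⟩ t ht
  exact ⟨F, hF, ht.trans hs⟩

theorem eul_link : ∀ v : Fin 6, eul (link cpx v) = 1 := by
  intro v
  have h : eul (link cpx v) = ∑ s : Finset (Fin 6), if s ∈ link cpx v then (-1) ^ s.card else 0 := by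
    unfold eul
    refine Finset.sum_congr rfl fun s _ => ?_
    congr
  rw [h]
  clear h
  revert v
  decide +kernel

theorem not_nonEvasive_link (v : Fin 6) : ¬ NonEvasive (link cpx v) := by
  intro h
  have := h.eul
  rw [eul_link v] at this
  exact one_ne_zero this

theorem not_nonEvasive : ¬ NonEvasive cpx := by
  intro h
  generalize hK : cpx = K at h
  cases h with
  | point v =>
      have h0 : ({0} : Finset (Fin 6)) ∈ cpx := by decide
      have h1 : ({1} : Finset (Fin 6)) ∈ cpx := by decide
      rw [hK] at h0 h1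
      simp only [Set.mem_insert_iff, Finset.singleton_ne_empty, Set.mem_singleton_iff,
        Finset.singleton_inj, false_or] at h0 h1
      rw [← h1] at h0
      exact absurd h0 (by decide)
  | step _ _ v _ _ _ hlk =>
      subst hK
      exact not_nonEvasive_link v hlk

/-! ### The representation -/

/-- The plane. -/
abbrev E2 := EuclideanSpace ℝ (Fin 2)

/-- An open half-plane. -/
def half (a b c : ℝ) : Set E2 := {x | c < a * x 0 + b * x 1}

theorem isOpen_half (a b c : ℝ) : IsOpen (half a b c) := by
  unfold half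
  exact isOpen_lt continuous_const (by fun_prop)

theorem convex_half (a b c : ℝ) : Convex ℝ (half a b c) := by
  intro x hx y hy s t hs ht hst
  simp only [half, Set.mem_setOf_eq, PiLp.add_apply, PiLp.smul_apply, smul_eq_mul] at *
  have e : a * (s * x 0 + t * y 0) + b * (s * x 1 + t * y 1)
      = s * (a * x 0 + b * x 1) + t * (a * y 0 + b * y 1) := by ring
  rw [e]
  rcases eq_or_lt_of_le hs with h0 | h0
  · subst h0
    have : t = 1 := by linarith
    subst this
    simpa using hy
  · have h1 : s * c < s * (a * x 0 + b * x 1) := mul_lt_mul_of_pos_left hx h0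
    have h2 : t * c ≤ t * (a * y 0 + b * y 1) := mul_le_mul_of_nonneg_left hy.le ht
    have h3 : s * c + t * c = c := by rw [← add_mul, hst, one_mul]
    linarith

/-- The enlarged pentagon. -/
def pent : Set E2 :=
  half (-3) 0 (-4) ∩ half (-1) (-3) (-4) ∩ half 4 (-3) (-6) ∩ half 4 3 (-6) ∩ half (-1) 3 (-4)

/-- The six sets. -/
def U : Fin 6 → Set E2
  | 0 => half 3 0 3
  | 1 => half 1 3 3
  | 2 => half (-4) 3 5
  | 3 => half (-4) (-3) 5
  | 4 => half 1 (-3) 3
  | 5 => pent

theorem openConvex_U : ∀ i, IsOpen (U i) ∧ Convex ℝ (U i) := by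
  intro i
  fin_cases i
  · exact ⟨isOpen_half _ _ _, convex_half _ _ _⟩
  · exact ⟨isOpen_half _ _ _, convex_half _ _ _⟩
  · exact ⟨isOpen_half _ _ _, convex_half _ _ _⟩
  · exact ⟨isOpen_half _ _ _, convex_half _ _ _⟩
  · exact ⟨isOpen_half _ _ _, convex_half _ _ _⟩
  · exact ⟨((((isOpen_half _ _ _).inter (isOpen_half _ _ _)).inter (isOpen_half _ _ _)).inter
      (isOpen_half _ _ _)).inter (isOpen_half _ _ _),
      ((((convex_half _ _ _).inter (convex_half _ _ _)).inter (convex_half _ _ _)).inter
      (convex_half _ _ _)).inter (convex_half _ _ _)⟩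

theorem union_U : (⋃ i, U i) = Set.univ := by
  ext x
  simp only [Set.mem_iUnion, Set.mem_univ, iff_true]
  by_contra hcon
  push Not at hcon
  have h0 := hcon 0
  have h1 := hcon 1
  have h2 := hcon 2
  have h3 := hcon 3
  have h4 := hcon 4
  have h5 := hcon 5
  simp only [U, half, Set.mem_setOf_eq, not_lt] at h0 h1 h2 h3 h4
  apply h5
  simp only [U, pent, half, Set.mem_inter_iff, Set.mem_setOf_eq]
  refine ⟨⟨⟨⟨?_, ?_⟩, ?_⟩, ?_⟩, ?_⟩ <;> linarith

theorem witness : ∀ F ∈ triangles, (⋂ i ∈ F, U i).Nonempty := by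
  intro F hF
  simp only [triangles, Finset.mem_insert, Finset.mem_singleton] at hF
  rcases hF with rfl | rfl | rfl | rfl | rfl | rfl | rfl | rfl | rfl | rfl
  · refine ⟨!₂[2, 10], ?_⟩
    simp [U, half]; norm_num
  · refine ⟨!₂[-10, 5], ?_⟩
    simp [U, half]; norm_num
  · refine ⟨!₂[-10, -5], ?_⟩
    simp [U, half]; norm_num
  · refine ⟨!₂[2, -10], ?_⟩
    simp [U, half]; norm_num
  · refine ⟨!₂[10, 0], ?_⟩
    simp [U, half]; norm_num
  · refine ⟨!₂[11 / 10, 7 / 10], ?_⟩
    simp [U, half, pent]; norm_num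
  · refine ⟨!₂[-2 / 5, 6 / 5], ?_⟩
    simp [U, half, pent]; norm_num
  · refine ⟨!₂[-13 / 10, 0], ?_⟩
    simp [U, half, pent]; norm_num
  · refine ⟨!₂[-2 / 5, -6 / 5], ?_⟩
    simp [U, half, pent]; norm_num
  · refine ⟨!₂[11 / 10, -7 / 10], ?_⟩
    simp [U, half, pent]; norm_num

theorem empties : ∀ M ∈ nonfaces, ¬ (⋂ i ∈ M, U i).Nonempty := by
  intro M hM
  simp only [nonfaces, Finset.mem_insert, Finset.mem_singleton] at hM
  rcases hM with rfl | rfl | rfl | rfl | rfl | rfl | rfl | rfl | rfl | rfl <;>
  · rintro ⟨x, hx⟩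
    simp only [Finset.mem_insert, Finset.mem_singleton, Set.iInter_iInter_eq_or_left,
      Set.iInter_iInter_eq_left, Set.mem_inter_iff, U, half, pent, Set.mem_setOf_eq] at hx
    obtain ⟨h1, h2, h3⟩ := hx
    linarith

theorem cover_nonfaces : ∀ s : Finset (Fin 6), s ∉ cpx → ∃ M ∈ nonfaces, M ⊆ s := by
  decide

theorem nerve_U : nerve U = cpx := by
  ext s
  constructor
  · intro hs
    by_contra hcon
    obtain ⟨M, hM, hMs⟩ := cover_nonfaces s hcon
    refine empties M hM (hs.mono ?_)
    exact Set.biInter_subset_biInter_left hMs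
  · rintro ⟨F, hF, hs⟩
    exact (witness F hF).mono (Set.biInter_subset_biInter_left hs)

theorem isDCUR_cpx : IsDCUR 2 cpx := by
  refine ⟨U, openConvex_U, ⟨0, ?_⟩, ?_, nerve_U⟩
  · obtain ⟨x, hx⟩ := witness {0, 1, 2} (by decide)
    exact ⟨x, by simpa using (Set.mem_iInter₂.1 hx 0 (by simp))⟩
  · rw [union_U]; exact convex_univ

/-- There is a complex on `Fin 6` with vertex set `Fin 6` that is `2`-convex union representable
but no vertex of which has a non-evasive link, so that it is not non-evasive.  Hence it is false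
that every convex union representable complex with at least one vertex is non-evasive. -/
theorem result :
    (∃ K : Set (Finset (Fin 6)), IsComplex K ∧ (∀ v, {v} ∈ K) ∧ IsDCUR 2 K ∧
      (∀ v, ¬ NonEvasive (link K v)) ∧ ¬ NonEvasive K) ∧
    ¬ ∀ (n : ℕ) (K : Set (Finset (Fin n))), IsComplex K → (∃ v, {v} ∈ K) → IsCUR K →
      NonEvasive K := by
  refine ⟨⟨cpx, isComplex_cpx, by decide, isDCUR_cpx, not_nonEvasive_link, not_nonEvasive⟩, ?_⟩
  intro h
  exact not_nonEvasive (h 6 cpx isComplex_cpx ⟨0, by decide⟩ ⟨2, isDCUR_cpx⟩)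

end Pool.Agent.Results.MP_fcbbae_co.EvasivePentagon
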